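import Mathlib

/-!
# Alon's conjecture: the numerical telescoping argument

`P j a b` is the probability that the configuration in the square number `j` contains
`1324^{⊕ a} ⊕ 1^{⊕ b}`.
-/

set_option autoImplicit false

namespace Pool.H15.AL

/-- exchanging blocks one after the other -/
theorem tele_a (P : ℕ → ℕ → ℝ) (R : ℕ → ℕ → ℝ) (n b : ℕ)
    (hgain : ∀ a b, R a b ≤ P a (b + 4) - P (a + 1) b) :
    ∑ a ∈ Finset.range (n + 1), R a (4 * (n - a) + b) ≤ P 0 (b + 4 * (n + 1)) - P (n + 1) b := by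
  have h := Finset.sum_range_sub' (fun a => P a (b + 4 * (n + 1 - a))) (n + 1)
  simp only [Nat.sub_zero, Nat.sub_self, Nat.mul_zero, Nat.add_zero] at h
  rw [← h]
  apply Finset.sum_le_sum
  intro a ha
  have ha' := Finset.mem_range.mp ha
  have h1 := hgain a (4 * (n - a) + b)
  have e1 : 4 * (n - a) + b + 4 = b + 4 * (n + 1 - a) := by omega
  have e2 : 4 * (n - a) + b = b + 4 * (n + 1 - (a + 1)) := by omega
  rw [e1] at h1
  rw [← e2]
  exact h1

theorem compare0 (P : ℕ → ℕ → ℝ) (η : ℝ)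
    (h : ∀ a b, -η ≤ P a (b + 4) - P (a + 1) b) (a b : ℕ) :
    P a b ≤ P 0 (b + 4 * a) + a * η := by
  induction a generalizing b with
  | zero => simp
  | succ a ih =>
    have h1 := h a b
    have h2 := ih (b + 4)
    have e : b + 4 + 4 * a = b + 4 * (a + 1) := by ring
    rw [e] at h2
    push_cast
    linarith

/-- the telescoping over the squares -/
theorem tele_j (u : ℕ → ℕ → ℝ) (B T : ℕ) :
    ∑ j ∈ Finset.range T, ∑ b ∈ Finset.range B, (u j b - u (j + 1) (b + 1)) =
      ∑ b ∈ Finset.range B, u 0 (b + 1) - ∑ b ∈ Finset.range B, u T (b + 1) +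
        ∑ j ∈ Finset.range T, (u j 0 - u j B) := by
  have h1 : ∀ j, ∑ b ∈ Finset.range B, (u j b - u (j + 1) (b + 1)) =
      (∑ b ∈ Finset.range B, u j (b + 1) - ∑ b ∈ Finset.range B, u (j + 1) (b + 1)) +
        (u j 0 - u j B) := by
    intro j
    rw [Finset.sum_sub_distrib]
    have h2 := Finset.sum_range_succ' (u j) B
    have h3 := Finset.sum_range_succ (u j) B
    linarith
  rw [Finset.sum_congr rfl (fun j _ => h1 j), Finset.sum_add_distrib,
    Finset.sum_range_sub' (fun j => ∑ b ∈ Finset.range B, u j (b + 1)) T]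

/-- the lower bound for the sum over `b` -/
theorem sum_lower (f : ℕ → ℝ) (m B : ℕ) (d : ℝ) (hf : ∀ i, 0 ≤ f i) (hm : m ≤ B)
    (h : ∀ i < m, 1 - d ≤ f i) : (1 - d) * m ≤ ∑ i ∈ Finset.range B, f i := by
  calc (1 - d) * m = ∑ _i ∈ Finset.range m, (1 - d) := by
        rw [Finset.sum_const, Finset.card_range, nsmul_eq_mul, mul_comm]
    _ ≤ ∑ i ∈ Finset.range m, f i :=
        Finset.sum_le_sum (fun i hi => h i (Finset.mem_range.mp hi))
    _ ≤ _ := Finset.sum_le_sum_of_subset_of_nonneg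
        (Finset.range_mono hm) (fun i _ _ => hf i)

/-- Markov -/
theorem markov (f : ℕ → ℝ) (hanti : ∀ i, f (i + 1) ≤ f i) (m : ℕ) (c : ℝ)
    (h : ∑ i ∈ Finset.range m, f (i + 1) ≤ c) : m * f m ≤ c := by
  have hmono : Antitone f := antitone_nat_of_succ_le hanti
  refine le_trans ?_ h
  calc (m : ℝ) * f m = ∑ _i ∈ Finset.range m, f m := by
        rw [Finset.sum_const, Finset.card_range, nsmul_eq_mul]
    _ ≤ _ := Finset.sum_le_sum (fun i hi => hmono (by have := Finset.mem_range.mp hi; omega))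

/-- upper bound for the mean excess -/
theorem upper_tail (f : ℕ → ℝ) (hf : ∀ i, 0 ≤ f i) (m B : ℕ) (d c : ℝ)
    (hlis : ∑ i ∈ Finset.range (m + B), f (i + 1) ≤ c)
    (hlow : ∀ i < m, 1 - d ≤ f (i + 1)) :
    ∑ i ∈ Finset.range B, f (m + i + 1) ≤ c - (1 - d) * m := by
  rw [Finset.sum_range_add] at hlis
  have h := sum_lower (fun i => f (i + 1)) m m d (fun i => hf _) le_rfl hlow
  linarith

theorem core (n : ℕ) (P : ℕ → ℕ → ℕ → ℝ) (κ : ℕ → ℕ) (g η d e : ℝ)
    (hg : 0 < g) (hη : 0 ≤ η) (hd : 0 ≤ d) (hd1 : d ≤ 1) (he : 0 ≤ e)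
    (hP0 : ∀ j a b, 0 ≤ P j a b)
    (hlis : ∀ j ≤ 32 * (n + 1), ∀ β : ℕ,
      ∑ b ∈ Finset.range β, P j 0 (b + 1) ≤ 8 * (n + 1) + (j : ℝ) / 4)
    (hanti : ∀ j b, P j 0 (b + 1) ≤ P j 0 b)
    (hgain : ∀ j < 32 * (n + 1), ∀ a b,
      g * (P j a b - P (j + 1) a (b + 1)) - η ≤ P (j + 1) a (b + 4) - P (j + 1) (a + 1) b)
    (hgain0 : ∀ j ≤ 32 * (n + 1), ∀ a b, -η ≤ P j a (b + 4) - P j (a + 1) b)
    (hlow : ∀ j ≤ 32 * (n + 1), ∀ a b, 4 * a + b ≤ κ j → 1 - d ≤ P j a b)
    (hκ : ∀ j ≤ 32 * (n + 1), (1 - e) * (8 * (n + 1) + (j : ℝ) / 4) ≤ κ j)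
    (hκ1 : ∀ j ≤ 32 * (n + 1), κ j ≤ 128 * (n + 1))
    (hκ2 : ∀ j ≤ 32 * (n + 1), 4 * (n + 1) ≤ κ j) :
    g * (n + 1) * ((1 - d) * ((1 - e) * (8 * (n + 1))) - 16 * (n + 1)
        - (n + 1) * (128 * (n + 1)) * η
        + 32 * (n + 1) * (7 / 8 - d - (n + 1) * η))
      ≤ 32 * (n + 1) * (16 * (n + 1) * (d + e)) + 32 * (n + 1) * (128 * (n + 1)) * (n + 1) * η := by
  set T := 32 * (n + 1) with hT
  set B := 128 * (n + 1) with hB
  -- the right hand side: the sum over `j`, `b`, `a` of the gains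
  have hA : ∀ a < n + 1,
      (1 - d) * ((1 - e) * (8 * (n + 1))) - 16 * (n + 1)
        - (n + 1) * (128 * (n + 1)) * η
        + 32 * (n + 1) * (7 / 8 - d - (n + 1) * η) ≤
      ∑ j ∈ Finset.range T, ∑ b ∈ Finset.range B,
        (P j a (4 * (n - a) + b) - P (j + 1) a (4 * (n - a) + b + 1)) := by
    intro a ha
    have h1 := tele_j (fun j b => P j a (4 * (n - a) + b)) B T
    simp only [← add_assoc] at h1
    rw [h1]
    -- `S_0`
    have hS0 : (1 - d) * ((κ 0 : ℝ) - 4 * n) ≤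
        ∑ b ∈ Finset.range B, P 0 a (4 * (n - a) + b + 1) := by
      have h2 := sum_lower (fun b => P 0 a (4 * (n - a) + b + 1)) (κ 0 - 4 * n) B d
        (fun _ => hP0 _ _ _) (by have := hκ1 0 (Nat.zero_le _); omega)
        (fun i hi => hlow 0 (Nat.zero_le _) _ _ (by omega))
      have h3 := hκ2 0 (Nat.zero_le _)
      rw [Nat.cast_sub (by omega)] at h2
      push_cast at h2
      exact h2
    -- `S_T`
    have hST : ∑ b ∈ Finset.range B, P T a (4 * (n - a) + b + 1) ≤
        16 * (n + 1) - (1 - d) * (4 * n) + (n + 1) * (128 * (n + 1)) * η := by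
      have h2 := upper_tail (P T 0) (hP0 T 0) (4 * n) B d _ (hlis T le_rfl _)
        (fun i hi => hlow T le_rfl 0 (i + 1) (by have := hκ2 T le_rfl; omega))
      have h3 : ∑ b ∈ Finset.range B, P T a (4 * (n - a) + b + 1) ≤
          ∑ b ∈ Finset.range B, (P T 0 (4 * n + b + 1) + (n + 1) * η) := by
        apply Finset.sum_le_sum
        intro b _
        have h4 := compare0 (P T) η (hgain0 T le_rfl) a (4 * (n - a) + b + 1)
        have e1 : 4 * (n - a) + b + 1 + 4 * a = 4 * n + b + 1 := by omega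
        rw [e1] at h4
        have h5 : (a : ℝ) * η ≤ (n + 1) * η := by
          apply mul_le_mul_of_nonneg_right _ hη
          have : (a : ℝ) < ((n + 1 : ℕ) : ℝ) := by exact_mod_cast ha
          push_cast at this
          linarith
        linarith
      rw [Finset.sum_add_distrib, Finset.sum_const, Finset.card_range, nsmul_eq_mul] at h3
      have e2 : ((T : ℕ) : ℝ) = 32 * (n + 1) := by rw [hT]; push_cast; ring
      have e3 : ((B : ℕ) : ℝ) = 128 * (n + 1) := by rw [hB]; push_cast; ring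
      rw [e2] at h2
      rw [e3] at h3
      push_cast at h2
      linarith [h2, h3]
    -- the boundary terms
    have hbd : 32 * (n + 1) * (7 / 8 - d - (n + 1) * η) ≤ ∑ j ∈ Finset.range T,
        (P j a (4 * (n - a) + 0) - P j a (4 * (n - a) + B)) := by
      have h2 : ∀ j ∈ Finset.range T, 7 / 8 - d - (n + 1) * η ≤
          P j a (4 * (n - a) + 0) - P j a (4 * (n - a) + B) := by
        intro j hj
        have hj' : j ≤ T := (Finset.mem_range.mp hj).le
        have h3 : 1 - d ≤ P j a (4 * (n - a) + 0) :=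
          hlow j hj' _ _ (by have := hκ2 j hj'; omega)
        have h4 := compare0 (P j) η (hgain0 j hj') a (4 * (n - a) + B)
        have e1 : 4 * (n - a) + B + 4 * a = 4 * n + B := by omega
        rw [e1] at h4
        have h5 : (a : ℝ) * η ≤ (n + 1) * η := by
          apply mul_le_mul_of_nonneg_right _ hη
          have : (a : ℝ) < ((n + 1 : ℕ) : ℝ) := by exact_mod_cast ha
          push_cast at this
          linarith
        have h6 := markov (P j 0) (hanti j) (4 * n + B) _ (hlis j hj' _)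
        have h7 : (j : ℝ) ≤ 32 * (n + 1) := by
          have : (j : ℝ) ≤ ((T : ℕ) : ℝ) := by exact_mod_cast hj'
          rw [hT] at this
          push_cast at this
          linarith
        have h8 : (128 * ((n : ℝ) + 1)) * P j 0 (4 * n + B) ≤ 16 * (n + 1) := by
          have h9 : (128 * ((n : ℝ) + 1)) * P j 0 (4 * n + B) ≤
              ((4 * n + B : ℕ) : ℝ) * P j 0 (4 * n + B) := by
            apply mul_le_mul_of_nonneg_right _ (hP0 _ _ _)
            rw [hB]
            push_cast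
            have : (0 : ℝ) ≤ n := Nat.cast_nonneg _
            linarith
          linarith
        have h10 : P j 0 (4 * n + B) ≤ 1 / 8 := by
          have hn : (0 : ℝ) < n + 1 := by positivity
          refine le_of_mul_le_mul_left ?_ hn
          linarith
        linarith
      have h3 := Finset.sum_le_sum h2
      rw [Finset.sum_const, Finset.card_range, nsmul_eq_mul] at h3
      have e2 : ((T : ℕ) : ℝ) = 32 * (n + 1) := by rw [hT]; push_cast; ring
      rw [e2] at h3
      exact h3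
    have hκ0 := hκ 0 (Nat.zero_le _)
    simp only [Nat.cast_zero, zero_div, add_zero] at hκ0
    have h11 : (1 - d) * ((1 - e) * (8 * ((n : ℝ) + 1))) ≤ (1 - d) * (κ 0 : ℝ) :=
      mul_le_mul_of_nonneg_left hκ0 (by linarith)
    have h12 : (1 - d) * ((κ 0 : ℝ) - 4 * n) = (1 - d) * (κ 0 : ℝ) - (1 - d) * (4 * n) := by ring
    linarith
  -- the left hand side
  have hL : ∀ j < T, ∑ b ∈ Finset.range B, (P (j + 1) 0 (b + 4 * (n + 1)) - P (j + 1) (n + 1) b) ≤
      16 * (n + 1) * (d + e) := by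
    intro j hj
    have hj' : j + 1 ≤ T := hj
    rw [Finset.sum_sub_distrib]
    have h2 := upper_tail (P (j + 1) 0) (hP0 (j + 1) 0) (4 * n + 3) B d _ (hlis (j + 1) hj' _)
      (fun i hi => hlow (j + 1) hj' 0 (i + 1) (by have := hκ2 (j + 1) hj'; omega))
    have h3 : ∑ b ∈ Finset.range B, P (j + 1) 0 (b + 4 * (n + 1)) =
        ∑ b ∈ Finset.range B, P (j + 1) 0 (4 * n + 3 + b + 1) := by
      apply Finset.sum_congr rfl
      intro b _
      congr 1
      ring
    rw [← h3] at h2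
    have h4 := sum_lower (fun b => P (j + 1) (n + 1) b) (κ (j + 1) - (4 * n + 3)) B d
      (fun _ => hP0 _ _ _) (by have := hκ1 (j + 1) hj'; omega)
      (fun i hi => hlow (j + 1) hj' _ _ (by omega))
    have h5 := hκ2 (j + 1) hj'
    rw [Nat.cast_sub (by omega)] at h4
    push_cast at h2 h4
    have h6 := hκ (j + 1) hj'
    push_cast at h6
    have h7 : (j : ℝ) + 1 ≤ 32 * (n + 1) := by
      have : ((j + 1 : ℕ) : ℝ) ≤ ((T : ℕ) : ℝ) := by exact_mod_cast hj'
      rw [hT] at this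
      push_cast at this
      linarith
    have h8 : (1 - d) * ((1 - e) * (8 * ((n : ℝ) + 1) + ((j : ℝ) + 1) / 4)) ≤
        (1 - d) * (κ (j + 1) : ℝ) :=
      mul_le_mul_of_nonneg_left h6 (by linarith)
    have h9 : (8 * ((n : ℝ) + 1) + ((j : ℝ) + 1) / 4) * (d + e) ≤ 16 * (n + 1) * (d + e) := by
      apply mul_le_mul_of_nonneg_right _ (by linarith)
      linarith
    have h10 : 0 ≤ (8 * ((n : ℝ) + 1) + ((j : ℝ) + 1) / 4) * (d * e) := by positivity
    linarith [h2, h4, h8, h9, h10]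
  have hsum : ∑ j ∈ Finset.range T, ∑ b ∈ Finset.range B, ∑ a ∈ Finset.range (n + 1),
      (g * (P j a (4 * (n - a) + b) - P (j + 1) a (4 * (n - a) + b + 1)) - η) ≤
      ∑ j ∈ Finset.range T, ∑ b ∈ Finset.range B,
        (P (j + 1) 0 (b + 4 * (n + 1)) - P (j + 1) (n + 1) b) := by
    apply Finset.sum_le_sum
    intro j hj
    apply Finset.sum_le_sum
    intro b _
    exact tele_a (P (j + 1)) (fun a b => g * (P j a b - P (j + 1) a (b + 1)) - η) n b
      (fun a b => hgain j (Finset.mem_range.mp hj) a b)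
  have hupper : ∑ j ∈ Finset.range T, ∑ b ∈ Finset.range B,
        (P (j + 1) 0 (b + 4 * (n + 1)) - P (j + 1) (n + 1) b) ≤
      32 * (n + 1) * (16 * (n + 1) * (d + e)) := by
    have h3 := Finset.sum_le_sum (fun j hj => hL j (Finset.mem_range.mp hj))
    rw [Finset.sum_const, Finset.card_range, nsmul_eq_mul] at h3
    have e2 : ((T : ℕ) : ℝ) = 32 * (n + 1) := by rw [hT]; push_cast; ring
    rw [e2] at h3
    exact h3
  have hlower : g * (n + 1) * ((1 - d) * ((1 - e) * (8 * (n + 1))) - 16 * (n + 1)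
        - (n + 1) * (128 * (n + 1)) * η
        + 32 * (n + 1) * (7 / 8 - d - (n + 1) * η)) - 32 * (n + 1) * (128 * (n + 1)) * (n + 1) * η ≤
      ∑ j ∈ Finset.range T, ∑ b ∈ Finset.range B, ∑ a ∈ Finset.range (n + 1),
      (g * (P j a (4 * (n - a) + b) - P (j + 1) a (4 * (n - a) + b + 1)) - η) := by
    have h1 : ∑ j ∈ Finset.range T, ∑ b ∈ Finset.range B, ∑ a ∈ Finset.range (n + 1),
        (g * (P j a (4 * (n - a) + b) - P (j + 1) a (4 * (n - a) + b + 1)) - η) =
        g * (∑ a ∈ Finset.range (n + 1), ∑ j ∈ Finset.range T, ∑ b ∈ Finset.range B,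
          (P j a (4 * (n - a) + b) - P (j + 1) a (4 * (n - a) + b + 1))) -
          (T : ℝ) * ((B : ℝ) * (((n + 1 : ℕ) : ℝ) * η)) := by
      have h2 : ∀ j ∈ Finset.range T, ∑ b ∈ Finset.range B, ∑ a ∈ Finset.range (n + 1),
          (g * (P j a (4 * (n - a) + b) - P (j + 1) a (4 * (n - a) + b + 1)) - η) =
          g * ∑ a ∈ Finset.range (n + 1), ∑ b ∈ Finset.range B,
            (P j a (4 * (n - a) + b) - P (j + 1) a (4 * (n - a) + b + 1)) -
            ((B : ℝ) * (((n + 1 : ℕ) : ℝ) * η)) := by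
        intro j _
        rw [Finset.sum_comm, Finset.mul_sum]
        simp only [Finset.sum_sub_distrib, Finset.sum_const, Finset.card_range, nsmul_eq_mul,
          Finset.mul_sum, mul_sub]
        ring
      rw [Finset.sum_congr rfl h2, Finset.sum_sub_distrib, ← Finset.mul_sum, Finset.sum_comm,
        Finset.sum_const, Finset.card_range, nsmul_eq_mul]
    rw [h1]
    have h3 := Finset.sum_le_sum (fun a ha => hA a (Finset.mem_range.mp ha))
    rw [Finset.sum_const, Finset.card_range, nsmul_eq_mul] at h3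
    have h4 := mul_le_mul_of_nonneg_left h3 hg.le
    have e2 : ((T : ℕ) : ℝ) = 32 * (n + 1) := by rw [hT]; push_cast; ring
    have e3 : ((B : ℕ) : ℝ) = 128 * (n + 1) := by rw [hB]; push_cast; ring
    rw [e2, e3]
    push_cast at h4 ⊢
    linarith
  linarith

end Pool.H15.AL
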