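import Mathlib
import Pool.Agent.H52.AL.Defs

/-!
Module E (link) of the disproof of Alon's conjecture: uniform permutations inside the grid model.
-/

set_option autoImplicit false
open Classical

namespace Pool.H15.AL

open Pool.H52.AL

/-- a sequence of points with the pattern `1324 ⊕ ... ⊕ 1324 ⊕ 1 ⊕ ... ⊕ 1` -/
theorem cab_of_seq (ω : Finset Cell) (a b : ℕ) (P : ℕ → Cell)
    (hmem : ∀ j, j < 4 * a + b → P j ∈ ω)
    (hx : ∀ i j, i < j → j < 4 * a + b → (P i).1 < (P j).1)
    (hy : ∀ i j, i < j → j < 4 * a + b → (¬ ∃ t, t < a ∧ i = 4 * t + 1 ∧ j = 4 * t + 2) →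
      (P i).2 < (P j).2)
    (hy' : ∀ t, t < a → (P (4 * t + 2)).2 < (P (4 * t + 1)).2) :
    Cab a b ω := by
  have hA : ∀ t, t ≤ a → XB t ((Finset.range (4 * t)).image P) := by
    intro t
    induction t with
    | zero => intro _; simp [XB]
    | succ t ih =>
      intro ht
      have hm : ∀ i, i < 4 * (t + 1) → P i ∈ (Finset.range (4 * (t + 1))).image P :=
        fun i hi => Finset.mem_image_of_mem _ (Finset.mem_range.mpr hi)
      have hsl : ∀ i j, i < j → j < 4 * (t + 1) → (¬ ∃ s, s < a ∧ i = 4 * s + 1 ∧ j = 4 * s + 2) →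
          sl (P i) (P j) := fun i j hij hj h =>
        ⟨hx i j hij (by omega), hy i j hij (by omega) h⟩
      refine ⟨P (4 * t), hm _ (by omega), P (4 * t + 1), hm _ (by omega), P (4 * t + 2),
        hm _ (by omega), P (4 * t + 3), hm _ (by omega), ⟨?_, ?_, ?_, ?_, ?_, ?_⟩, ?_⟩
      · exact hsl _ _ (by omega) (by omega) (by rintro ⟨s, _, h1, h2⟩; omega)
      · exact hsl _ _ (by omega) (by omega) (by rintro ⟨s, _, h1, h2⟩; omega)
      · exact hx _ _ (by omega) (by omega)
      · exact hy' t (by omega)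
      · exact hsl _ _ (by omega) (by omega) (by rintro ⟨s, _, h1, h2⟩; omega)
      · exact hsl _ _ (by omega) (by omega) (by rintro ⟨s, _, h1, h2⟩; omega)
      · refine ⟨(Finset.range (4 * t)).image P, ?_, ih (by omega), ?_⟩
        · exact Finset.image_subset_image (Finset.range_subset_range.mpr (by omega))
        · intro p hp
          obtain ⟨i, hi, rfl⟩ := Finset.mem_image.mp hp
          have hi' := Finset.mem_range.mp hi
          exact hsl i (4 * t) hi' (by omega) (by rintro ⟨s, _, h1, h2⟩; omega)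
  have hB : ∀ s, s ≤ b → YI s ((Finset.Ico (4 * a + b - s) (4 * a + b)).image P) := by
    intro s
    induction s with
    | zero => intro _; simp [YI]
    | succ s ih =>
      intro hs
      refine ⟨P (4 * a + b - (s + 1)), Finset.mem_image_of_mem _
        (Finset.mem_Ico.mpr ⟨le_rfl, by omega⟩), ?_⟩
      refine ⟨(Finset.Ico (4 * a + b - s) (4 * a + b)).image P, ?_, ih (by omega), ?_⟩
      · apply Finset.image_subset_image
        intro i hi
        rw [Finset.mem_Ico] at hi ⊢
        omega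
      · intro p hp
        obtain ⟨i, hi, rfl⟩ := Finset.mem_image.mp hp
        rw [Finset.mem_Ico] at hi
        exact ⟨hx _ i (by omega) (by omega), hy _ i (by omega) (by omega)
          (by rintro ⟨s, _, h1, h2⟩; omega)⟩
  rcases Nat.eq_zero_or_pos b with hb | hb
  · -- no increasing part
    subst hb
    refine ⟨((ω.sup Prod.fst) + 1, (ω.sup Prod.snd) + 1), ⟨_, ?_, hA a le_rfl, ?_⟩,
      ⟨∅, by simp, by simp [YI], by simp⟩⟩
    · intro p hp
      obtain ⟨i, hi, rfl⟩ := Finset.mem_image.mp hp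
      exact hmem i (by have := Finset.mem_range.mp hi; omega)
    · intro p hp
      obtain ⟨i, hi, rfl⟩ := Finset.mem_image.mp hp
      have hi' := hmem i (by have := Finset.mem_range.mp hi; omega)
      exact ⟨Nat.lt_succ_of_le (Finset.le_sup (f := Prod.fst) hi'),
        Nat.lt_succ_of_le (Finset.le_sup (f := Prod.snd) hi')⟩
  · refine ⟨P (4 * a), ⟨_, ?_, hA a le_rfl, ?_⟩, ⟨_, ?_, hB b le_rfl, ?_⟩⟩
    · intro p hp
      obtain ⟨i, hi, rfl⟩ := Finset.mem_image.mp hp
      exact hmem i (by have := Finset.mem_range.mp hi; omega)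
    · intro p hp
      obtain ⟨i, hi, rfl⟩ := Finset.mem_image.mp hp
      have hi' := Finset.mem_range.mp hi
      exact ⟨hx _ _ hi' (by omega), hy _ _ hi' (by omega) (by rintro ⟨s, _, h1, h2⟩; omega)⟩
    · intro p hp
      obtain ⟨i, hi, rfl⟩ := Finset.mem_image.mp hp
      rw [Finset.mem_Ico] at hi
      exact hmem i (by omega)
    · intro p hp
      obtain ⟨i, hi, rfl⟩ := Finset.mem_image.mp hp
      rw [Finset.mem_Ico] at hi
      rcases Nat.lt_or_ge (4 * a) i with h | h
      · exact ⟨(hx _ _ h (by omega)).le,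
          (hy _ _ h (by omega) (by rintro ⟨s, _, h1, h2⟩; omega)).le⟩
      · have : i = 4 * a := by omega
        rw [this]
        exact ⟨le_rfl, le_rfl⟩

/-- the block pattern as a function on `ℕ` -/
def gpat (a i : ℕ) : ℕ :=
  if i < 4 * a ∧ i % 4 = 1 then i + 1 else if i < 4 * a ∧ i % 4 = 2 then i - 1 else i

theorem gpat_lt (a k i : ℕ) (hk : 4 * a ≤ k) (hi : i < k) : gpat a i < k := by
  unfold gpat
  split_ifs <;> omega

theorem gpat_gpat (a i : ℕ) : gpat a (gpat a i) = i := by
  unfold gpat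
  split_ifs <;> omega

theorem gpat_mono (a i j : ℕ) (hij : i < j)
    (h : ¬ ∃ t, t < a ∧ i = 4 * t + 1 ∧ j = 4 * t + 2) : gpat a i < gpat a j := by
  have h' : ¬ (i < 4 * a ∧ i % 4 = 1 ∧ j = i + 1) := by
    rintro ⟨h1, h2, h3⟩
    exact h ⟨i / 4, by omega, by omega, by omega⟩
  unfold gpat
  split_ifs <;> omega

/-- the block pattern as a permutation -/
def ppat (a k : ℕ) (hk : 4 * a ≤ k) : Equiv.Perm (Fin k) :=
  Function.Involutive.toPerm (fun i => (⟨gpat a i, gpat_lt a k i hk i.2⟩ : Fin k))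
    (fun i => Fin.ext (gpat_gpat a i))

/-- the configuration attached to columns, rows and a permutation -/
noncomputable def conf {n : ℕ} (C R : Finset ℕ) (σ : Equiv.Perm (Fin n)) : Finset Cell :=
  if h : C.card = n ∧ R.card = n then
    Finset.univ.image fun i : Fin n => (C.orderEmbOfFin h.1 i, R.orderEmbOfFin h.2 (σ i))
  else ∅

theorem cab_conf {n k : ℕ} (a b : ℕ) (hk : 4 * a + b ≤ k) (C R : Finset ℕ)
    (hC : C.card = n) (hR : R.card = n) (σ : Equiv.Perm (Fin n)) (hσ : Uni k n σ) :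
    Cab a b (conf C R σ) := by
  obtain ⟨f, hf⟩ := hσ (ppat a k (by omega))
  have hconf : conf C R σ =
      Finset.univ.image fun i : Fin n => (C.orderEmbOfFin hC i, R.orderEmbOfFin hR (σ i)) := by
    unfold conf
    rw [dif_pos ⟨hC, hR⟩]
  let P : ℕ → Cell := fun j => if h : j < k then
    (C.orderEmbOfFin hC (f ⟨j, h⟩), R.orderEmbOfFin hR (σ (f ⟨j, h⟩))) else (0, 0)
  have hP : ∀ j (h : j < k), P j =
      (C.orderEmbOfFin hC (f ⟨j, h⟩), R.orderEmbOfFin hR (σ (f ⟨j, h⟩))) := by
    intro j h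
    simp only [P, h, dif_pos]
  have hlt : ∀ i j (hi : i < k) (hj : j < k), gpat a i < gpat a j →
      R.orderEmbOfFin hR (σ (f ⟨i, hi⟩)) < R.orderEmbOfFin hR (σ (f ⟨j, hj⟩)) := by
    intro i j hi hj h
    apply (R.orderEmbOfFin hR).strictMono
    exact (hf ⟨i, hi⟩ ⟨j, hj⟩).mp h
  apply cab_of_seq _ a b P
  · intro j hj
    rw [hP j (by omega), hconf]
    exact Finset.mem_image_of_mem _ (Finset.mem_univ _)
  · intro i j hij hj
    rw [hP j (by omega), hP i (by omega)]
    exact (C.orderEmbOfFin hC).strictMono (f.strictMono hij)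
  · intro i j hij hj h
    rw [hP j (by omega), hP i (by omega)]
    exact hlt i j _ _ (gpat_mono a i j hij h)
  · intro t ht
    rw [hP (4 * t + 2) (by omega), hP (4 * t + 1) (by omega)]
    apply hlt
    unfold gpat
    split_ifs <;> omega

theorem conf_fst {n : ℕ} (C R : Finset ℕ) (hC : C.card = n) (hR : R.card = n)
    (σ : Equiv.Perm (Fin n)) : (conf C R σ).image Prod.fst = C := by
  unfold conf
  rw [dif_pos ⟨hC, hR⟩, Finset.image_image]
  ext x
  simp only [Finset.mem_image, Finset.mem_univ, true_and, Function.comp]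
  have := Finset.range_orderEmbOfFin C hC
  constructor
  · rintro ⟨i, rfl⟩
    exact Finset.orderEmbOfFin_mem C hC i
  · intro hx
    have h1 : x ∈ Set.range (C.orderEmbOfFin hC) := by rw [this]; exact hx
    exact h1

theorem conf_snd {n : ℕ} (C R : Finset ℕ) (hC : C.card = n) (hR : R.card = n)
    (σ : Equiv.Perm (Fin n)) : (conf C R σ).image Prod.snd = R := by
  unfold conf
  rw [dif_pos ⟨hC, hR⟩, Finset.image_image]
  ext x
  simp only [Finset.mem_image, Finset.mem_univ, true_and, Function.comp]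
  have := Finset.range_orderEmbOfFin R hR
  constructor
  · rintro ⟨i, rfl⟩
    exact Finset.orderEmbOfFin_mem R hR _
  · intro hx
    have h1 : x ∈ Set.range (R.orderEmbOfFin hR) := by rw [this]; exact hx
    obtain ⟨j, hj⟩ := h1
    exact ⟨σ.symm j, by simpa using hj⟩

theorem conf_inj {n : ℕ} {C R C' R' : Finset ℕ} (hC : C.card = n) (hR : R.card = n)
    (hC' : C'.card = n) (hR' : R'.card = n) {σ σ' : Equiv.Perm (Fin n)}
    (h : conf C R σ = conf C' R' σ') : C = C' ∧ R = R' ∧ σ = σ' := by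
  have h1 : C = C' := by rw [← conf_fst C R hC hR σ, h, conf_fst C' R' hC' hR' σ']
  have h2 : R = R' := by rw [← conf_snd C R hC hR σ, h, conf_snd C' R' hC' hR' σ']
  subst h1 h2
  refine ⟨rfl, rfl, Equiv.ext fun i => ?_⟩
  unfold conf at h
  rw [dif_pos ⟨hC, hR⟩, dif_pos ⟨hC, hR⟩] at h
  have h3 : (C.orderEmbOfFin hC i, R.orderEmbOfFin hR (σ i)) ∈
      Finset.univ.image fun i : Fin n => (C.orderEmbOfFin hC i, R.orderEmbOfFin hR (σ' i)) := by
    rw [← h]
    exact Finset.mem_image_of_mem _ (Finset.mem_univ _)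
  obtain ⟨j, -, hj⟩ := Finset.mem_image.mp h3
  have h4 := congrArg Prod.fst hj
  have h5 := congrArg Prod.snd hj
  have h6 : j = i := (C.orderEmbOfFin hC).injective h4
  subst h6
  exact ((R.orderEmbOfFin hR).injective h5).symm

theorem conf_mem {n M : ℕ} {C R : Finset ℕ} (hC : C ∈ Finset.powersetCard n (Finset.range M))
    (hR : R ∈ Finset.powersetCard n (Finset.range M)) (σ : Equiv.Perm (Fin n)) :
    conf C R σ ∈ (grid M).powerset ∧ NC (conf C R σ) ∧ (conf C R σ).card = n := by
  rw [Finset.mem_powersetCard] at hC hR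
  unfold conf
  rw [dif_pos ⟨hC.2, hR.2⟩]
  refine ⟨?_, ?_, ?_⟩
  · rw [Finset.mem_powerset]
    intro p hp
    obtain ⟨i, -, rfl⟩ := Finset.mem_image.mp hp
    exact Finset.mem_product.mpr ⟨hC.1 (Finset.orderEmbOfFin_mem C hC.2 i),
      hR.1 (Finset.orderEmbOfFin_mem R hR.2 _)⟩
  · intro p hp p' hp' hne
    obtain ⟨i, -, rfl⟩ := Finset.mem_image.mp hp
    obtain ⟨j, -, rfl⟩ := Finset.mem_image.mp hp'
    have hij : i ≠ j := by rintro rfl; exact hne rfl
    exact ⟨fun h => hij ((C.orderEmbOfFin hC.2).injective h),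
      fun h => hij (σ.injective ((R.orderEmbOfFin hR.2).injective h))⟩
  · rw [Finset.card_image_of_injective]
    · simp
    · intro i j h
      exact (C.orderEmbOfFin hC.2).injective (congrArg Prod.fst h)

theorem conf_surj {n M : ℕ} {ω : Finset Cell} (hω : ω ∈ (grid M).powerset) (hNC : NC ω)
    (hn : ω.card = n) : ∃ C ∈ Finset.powersetCard n (Finset.range M),
      ∃ R ∈ Finset.powersetCard n (Finset.range M), ∃ σ : Equiv.Perm (Fin n), conf C R σ = ω := by
  rw [Finset.mem_powerset] at hω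
  have i1 : Set.InjOn Prod.fst (ω : Set Cell) := by
    intro p hp p' hp' h
    by_contra hne
    exact (hNC p hp p' hp' hne).1 h
  have i2 : Set.InjOn Prod.snd (ω : Set Cell) := by
    intro p hp p' hp' h
    by_contra hne
    exact (hNC p hp p' hp' hne).2 h
  have hC : (ω.image Prod.fst).card = n := by rw [Finset.card_image_of_injOn i1, hn]
  have hR : (ω.image Prod.snd).card = n := by rw [Finset.card_image_of_injOn i2, hn]
  set C := ω.image Prod.fst with hCdef
  set R := ω.image Prod.snd with hRdef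
  have hex : ∀ i : Fin n, ∃ j : Fin n,
      (C.orderEmbOfFin hC i, R.orderEmbOfFin hR j) ∈ ω := by
    intro i
    have h1 := Finset.orderEmbOfFin_mem C hC i
    obtain ⟨p, hp, hpi⟩ := Finset.mem_image.mp h1
    have h2 : p.2 ∈ R := Finset.mem_image_of_mem _ hp
    have h3 : p.2 ∈ Set.range (R.orderEmbOfFin hR) := by
      rw [Finset.range_orderEmbOfFin]; exact h2
    obtain ⟨j, hj⟩ := h3
    refine ⟨j, ?_⟩
    rw [hj, ← hpi]
    exact hp
  choose s hs using hex
  have hsinj : Function.Injective s := by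
    intro i j hij
    have h1 := hs i
    have h2 := hs j
    rw [← hij] at h2
    have h3 := i2 h1 h2 rfl
    exact (C.orderEmbOfFin hC).injective (congrArg Prod.fst h3)
  refine ⟨C, ?_, R, ?_, Equiv.ofBijective s ((Fintype.bijective_iff_injective_and_card s).mpr
    ⟨hsinj, rfl⟩), ?_⟩
  · rw [Finset.mem_powersetCard]
    refine ⟨?_, hC⟩
    intro x hx
    obtain ⟨p, hp, rfl⟩ := Finset.mem_image.mp hx
    exact (Finset.mem_product.mp (hω hp)).1
  · rw [Finset.mem_powersetCard]
    refine ⟨?_, hR⟩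
    intro x hx
    obtain ⟨p, hp, rfl⟩ := Finset.mem_image.mp hx
    exact (Finset.mem_product.mp (hω hp)).2
  · unfold conf
    rw [dif_pos ⟨hC, hR⟩]
    apply Finset.eq_of_subset_of_card_le
    · intro p hp
      obtain ⟨i, -, rfl⟩ := Finset.mem_image.mp hp
      exact hs i
    · rw [hn, Finset.card_image_of_injective]
      · simp
      · intro i j h
        exact (C.orderEmbOfFin hC).injective (congrArg Prod.fst h)

/-- the level sets -/
theorem count_level (M n k a b : ℕ) (δ : ℝ) (hk : 4 * a + b ≤ k)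
    (H : (1 - δ) * ((Nat.factorial n : ℕ) : ℝ) ≤
        (((Finset.univ : Finset (Equiv.Perm (Fin n))).filter (fun σ => Uni k n σ)).card : ℝ)) :
    (1 - δ) * (((grid M).powerset.filter fun ω => NC ω ∧ ω.card = n).card : ℝ) ≤
      (((grid M).powerset.filter fun ω => Cab a b ω ∧ ω.card = n).card : ℝ) := by
  set PC := Finset.powersetCard n (Finset.range M) with hPC
  have h1 : ((grid M).powerset.filter fun ω => NC ω ∧ ω.card = n).card =
      (PC ×ˢ PC ×ˢ (Finset.univ : Finset (Equiv.Perm (Fin n)))).card := by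
    symm
    apply Finset.card_bij (fun z _ => conf z.1 z.2.1 z.2.2)
    · rintro ⟨C, R, σ⟩ hz
      simp only [Finset.mem_product, Finset.mem_univ, and_true] at hz
      have := conf_mem hz.1 hz.2 σ
      rw [Finset.mem_filter]
      exact ⟨this.1, this.2⟩
    · rintro ⟨C, R, σ⟩ hz ⟨C', R', σ'⟩ hz' h
      simp only [Finset.mem_product, Finset.mem_univ, and_true, hPC,
        Finset.mem_powersetCard] at hz hz'
      obtain ⟨e1, e2, e3⟩ := conf_inj hz.1.2 hz.2.2 hz'.1.2 hz'.2.2 h
      have e3' : σ = σ' := e3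
      rw [e1, e2, e3']
    · intro ω hω
      rw [Finset.mem_filter] at hω
      obtain ⟨C, hC, R, hR, σ, h⟩ := conf_surj hω.1 hω.2.1 hω.2.2
      exact ⟨(C, R, σ), by simp [hC, hR, hPC], h⟩
  have h2 : (PC ×ˢ PC ×ˢ ((Finset.univ : Finset (Equiv.Perm (Fin n))).filter
      (fun σ => Uni k n σ))).card ≤
      ((grid M).powerset.filter fun ω => Cab a b ω ∧ ω.card = n).card := by
    apply Finset.card_le_card_of_injOn (fun z => conf z.1 z.2.1 z.2.2)
    · rintro ⟨C, R, σ⟩ hz
      simp only [Finset.coe_product, Set.mem_prod, Finset.mem_coe, Finset.mem_filter,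
        Finset.mem_univ, true_and] at hz
      have := conf_mem hz.1 hz.2.1 σ
      rw [Finset.mem_coe, Finset.mem_filter]
      rw [hPC, Finset.mem_powersetCard, Finset.mem_powersetCard] at hz
      exact ⟨this.1, cab_conf a b hk C R hz.1.2 hz.2.1.2 σ hz.2.2, this.2.2⟩
    · rintro ⟨C, R, σ⟩ hz ⟨C', R', σ'⟩ hz' h
      simp only [Finset.coe_product, Set.mem_prod, Finset.mem_coe, Finset.mem_filter,
        Finset.mem_univ, true_and, hPC, Finset.mem_powersetCard] at hz hz'
      obtain ⟨e1, e2, e3⟩ := conf_inj hz.1.2 hz.2.1.2 hz'.1.2 hz'.2.1.2 h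
      have e3' : σ = σ' := e3
      rw [e1, e2, e3']
  rw [h1]
  rw [Finset.card_product, Finset.card_product] at h2 ⊢
  have h3 : ((PC.card * (PC.card * ((Finset.univ : Finset (Equiv.Perm (Fin n))).filter
      (fun σ => Uni k n σ)).card) : ℕ) : ℝ) ≤
      (((grid M).powerset.filter fun ω => Cab a b ω ∧ ω.card = n).card : ℝ) := by
    exact_mod_cast h2
  refine le_trans ?_ h3
  push_cast
  rw [Finset.card_univ, Fintype.card_perm, Fintype.card_fin]
  have h4 : (0 : ℝ) ≤ (PC.card : ℝ) * (PC.card : ℝ) := by positivity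
  calc (1 - δ) * ((PC.card : ℝ) * ((PC.card : ℝ) * ((Nat.factorial n : ℕ) : ℝ)))
      = ((PC.card : ℝ) * (PC.card : ℝ)) * ((1 - δ) * ((Nat.factorial n : ℕ) : ℝ)) := by ring
    _ ≤ ((PC.card : ℝ) * (PC.card : ℝ)) * (((Finset.univ : Finset (Equiv.Perm (Fin n))).filter
        (fun σ => Uni k n σ)).card : ℝ) := mul_le_mul_of_nonneg_left H h4
    _ = _ := by ring

theorem Pr_level (q : ℝ) (M : ℕ) (P : Finset Cell → Prop) :
    Pr q M P = ∑ n ∈ Finset.range (M ^ 2 + 1),
      (((grid M).powerset.filter fun ω => P ω ∧ ω.card = n).card : ℝ) *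
        (q ^ n * (1 - q) ^ (M ^ 2 - n)) := by
  unfold Pr
  have hmaps : ∀ ω ∈ (grid M).powerset.filter P, ω.card ∈ Finset.range (M ^ 2 + 1) := by
    intro ω hω
    rw [Finset.mem_filter, Finset.mem_powerset] at hω
    have h1 := Finset.card_le_card hω.1
    have h2 : (grid M).card = M ^ 2 := by
      unfold grid
      rw [Finset.card_product, Finset.card_range]
      ring
    rw [Finset.mem_range]
    omega
  rw [← Finset.sum_fiberwise_of_maps_to hmaps]
  apply Finset.sum_congr rfl
  intro n _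
  rw [Finset.filter_filter]
  rw [Finset.sum_congr rfl (g := fun _ => q ^ n * (1 - q) ^ (M ^ 2 - n))]
  · rw [Finset.sum_const, nsmul_eq_mul]
  · intro ω hω
    rw [Finset.mem_filter] at hω
    rw [hω.2.2]

theorem card_filter_le_imp {α : Type*} (s : Finset α) (P Q : α → Prop) {dP : DecidablePred P}
    {dQ : DecidablePred Q} (h : ∀ x ∈ s, P x → Q x) :
    (s.filter P).card ≤ (s.filter Q).card := by
  apply Finset.card_le_card
  intro x hx
  rw [Finset.mem_filter] at hx ⊢
  exact ⟨hx.1, h x hx.1 hx.2⟩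

theorem card_filter_eq_zero' {α : Type*} (s : Finset α) (P : α → Prop) {dP : DecidablePred P}
    (h : ∀ x ∈ s, ¬ P x) : (s.filter P).card = 0 := by
  rw [Finset.card_eq_zero, Finset.filter_eq_empty_iff]
  intro x hx
  exact h x hx

/-- MODULE E (uniform permutations inside the grid model) -/
theorem link (q : ℝ) (hq0 : 0 < q) (hq1 : q < 1) (M n0 k a b : ℕ) (δ : ℝ) (hδ : 0 ≤ δ) (hδ1 : δ ≤ 1)
    (hk : 4 * a + b ≤ k)
    (H : ∀ n : ℕ, n0 ≤ n → (1 - δ) * ((Nat.factorial n : ℕ) : ℝ) ≤
        (((Finset.univ : Finset (Equiv.Perm (Fin n))).filter (fun σ => Uni k n σ)).card : ℝ)) :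
    (1 - δ) * Pr q M (fun ω => NC ω ∧ n0 ≤ ω.card) ≤ Pr q M (Cab a b) := by
  rw [Pr_level, Pr_level, Finset.mul_sum]
  apply Finset.sum_le_sum
  intro n _
  have hw : 0 ≤ q ^ n * (1 - q) ^ (M ^ 2 - n) := by
    have : 0 ≤ 1 - q := by linarith
    positivity
  rw [← mul_assoc]
  apply mul_le_mul_of_nonneg_right _ hw
  rcases Nat.lt_or_ge n n0 with h | h
  · refine le_trans (le_of_eq ?_) (Nat.cast_nonneg _)
    refine mul_eq_zero_of_right _ (Nat.cast_eq_zero.mpr (card_filter_eq_zero' _ _ ?_))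
    rintro ω - ⟨⟨-, h2⟩, h3⟩
    omega
  · refine le_trans ?_ (le_trans (count_level M n k a b δ hk (H n h)) (Nat.cast_le.mpr
      (card_filter_le_imp _ _ _ (fun ω _ h => h))))
    apply mul_le_mul_of_nonneg_left _ (by linarith)
    apply Nat.cast_le.mpr
    apply card_filter_le_imp
    rintro ω - ⟨⟨h1, -⟩, h3⟩
    exact ⟨h1, h3⟩

end Pool.H15.AL
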