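import Pool.Agent.H52.AL.B0
import Pool.Agent.H27.AL.GH
import Pool.Agent.H36.AL.D
import Pool.Agent.H74.AL.C
import Pool.Agent.H15.AL.Link
import Pool.Agent.H15.AL.Core

/-!
# Alon's conjecture: final assembly
-/

set_option autoImplicit false
open Classical
open Pool.H52.AL

namespace Pool.H15.AL

/-! ### elementary facts on `Pr` -/

theorem Pr_mono' {q : ℝ} (hq0 : 0 ≤ q) (hq1 : q ≤ 1) (M : ℕ) {P Q : Finset Cell → Prop}
    (h : ∀ ω, P ω → Q ω) : Pr q M P ≤ Pr q M Q := by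
  unfold Pr
  apply Finset.sum_le_sum_of_subset_of_nonneg
  · intro ω hω
    rw [Finset.mem_filter] at hω ⊢
    exact ⟨hω.1, h ω hω.2⟩
  · intro ω _ _
    have : 0 ≤ 1 - q := by linarith
    positivity

theorem Pr_nonneg' {q : ℝ} (hq0 : 0 ≤ q) (hq1 : q ≤ 1) (M : ℕ) (P : Finset Cell → Prop) :
    0 ≤ Pr q M P := by
  unfold Pr
  apply Finset.sum_nonneg
  intro ω _
  have : 0 ≤ 1 - q := by linarith
  positivity

theorem Pr_split {q : ℝ} (M : ℕ) (P Q : Finset Cell → Prop) :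
    Pr q M P = Pr q M (fun ω => P ω ∧ Q ω) + Pr q M (fun ω => P ω ∧ ¬ Q ω) := by
  unfold Pr
  rw [Finset.sum_filter, Finset.sum_filter, Finset.sum_filter, ← Finset.sum_add_distrib]
  apply Finset.sum_congr rfl
  intro ω _
  by_cases h1 : P ω <;> by_cases h2 : Q ω <;> simp [h1, h2]

theorem Pr_true (q : ℝ) (M : ℕ) : Pr q M (fun _ => True) = 1 := by
  unfold Pr
  rw [Finset.sum_filter]
  simp only [if_true]
  have h := Finset.sum_pow_mul_eq_add_pow q (1 - q) (grid M)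
  rw [Pool.Agent.H27.AL.card_grid] at h
  rw [h]
  simp

theorem Pr_le_one {q : ℝ} (hq0 : 0 ≤ q) (hq1 : q ≤ 1) (M : ℕ) (P : Finset Cell → Prop) :
    Pr q M P ≤ 1 := by
  rw [← Pr_true q M]
  exact Pr_mono' hq0 hq1 M (fun _ _ => trivial)

/-- `1 ≤ P(NC ∧ n0 ≤ card) + P(¬ NC) + P(card < n0)` -/
theorem one_le {q : ℝ} (hq0 : 0 ≤ q) (hq1 : q ≤ 1) (M n0 : ℕ) :
    1 ≤ Pr q M (fun ω => NC ω ∧ n0 ≤ ω.card) + Pr q M (fun ω => ¬ NC ω) +
      Pr q M (fun ω => ω.card < n0) := by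
  have h1 := Pr_split (q := q) M (fun _ => True) NC
  have h2 := Pr_split (q := q) M NC (fun ω => n0 ≤ ω.card)
  rw [Pr_true] at h1
  have h3 : Pr q M (fun ω => NC ω ∧ ¬ n0 ≤ ω.card) ≤ Pr q M (fun ω => ω.card < n0) :=
    Pr_mono' hq0 hq1 M (fun ω h => not_le.mp h.2)
  have h4 : Pr q M (fun ω => True ∧ NC ω) ≤ Pr q M NC := Pr_mono' hq0 hq1 M (fun ω h => h.2)
  have h5 : Pr q M (fun ω => True ∧ ¬ NC ω) ≤ Pr q M (fun ω => ¬ NC ω) :=
    Pr_mono' hq0 hq1 M (fun ω h => h.2)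
  linarith

/-! ### the patterns -/

theorem U_sub {X : Finset Cell → Prop} {A ω : Finset Cell} (hA : A ⊆ ω) {z : Cell}
    (h : U X A z) : U X ω z := by
  obtain ⟨B, hB, h1, h2⟩ := h
  exact ⟨B, hB.trans hA, h1, h2⟩

theorem D_sub {Y : Finset Cell → Prop} {A ω : Finset Cell} (hA : A ⊆ ω) {z : Cell}
    (h : D Y A z) : D Y ω z := by
  obtain ⟨B, hB, h1, h2⟩ := h
  exact ⟨B, hB.trans hA, h1, h2⟩

/-- one more point -/
theorem D_succ (b : ℕ) {ω : Finset Cell} {p : Cell} (hp : p ∈ ω)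
    (h : D (YI b) ω (p.1 + 1, p.2 + 1)) : D (YI (b + 1)) ω p := by
  obtain ⟨A, hA, h1, h2⟩ := h
  refine ⟨insert p A, ?_, ?_, ?_⟩
  · intro x hx
    rcases Finset.mem_insert.mp hx with h | h
    · rw [h]; exact hp
    · exact hA h
  · exact ⟨p, Finset.mem_insert_self _ _, A, Finset.subset_insert _ _, h1, h2⟩
  · intro x hx
    rcases Finset.mem_insert.mp hx with h | h
    · rw [h]; exact ⟨le_rfl, le_rfl⟩
    · have := h2 x h
      simp only at this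
      exact ⟨by omega, by omega⟩

theorem C1_Cab (a b : ℕ) {ω : Finset Cell} (h : C1 (XB a) (YI b) ω) : Cab a (b + 1) ω := by
  obtain ⟨p, hp, hU, hD⟩ := h
  exact ⟨p, hU, D_succ b hp hD⟩

theorem D_step (b : ℕ) {ω : Finset Cell} {p p' : Cell} (hp : p ∈ ω) (hs : sl p p')
    (h : D (YI b) ω p') : D (YI (b + 1)) ω p :=
  D_succ b hp (D_anti h hs.1 hs.2)

theorem C4_Cab (a b : ℕ) {ω : Finset Cell} (h : C4 (XB a) (YI b) ω) : Cab a (b + 4) ω := by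
  obtain ⟨p1, h1, p2, h2, p3, h3, p4, h4, hU, h12, h23, h34, hD⟩ := h
  exact ⟨p1, hU, D_step (b + 3) h1 h12 (D_step (b + 2) h2 h23 (D_step (b + 1) h3 h34
    (D_succ b h4 hD)))⟩

theorem Cab_CB (a b : ℕ) {ω : Finset Cell} (h : Cab (a + 1) b ω) : CB (XB a) (YI b) ω := by
  obtain ⟨z, ⟨A, hA, ⟨p1, h1, p2, h2, p3, h3, p4, h4, hI, hU⟩, hz⟩, hD⟩ := h
  exact ⟨p1, hA h1, p2, hA h2, p3, hA h3, p4, hA h4, U_sub hA hU, hI,
    D_anti hD (hz p4 h4).1 (hz p4 h4).2⟩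

theorem Cab_anti (b : ℕ) {ω : Finset Cell} (h : Cab 0 (b + 1) ω) : Cab 0 b ω := by
  obtain ⟨z, hU, A, hA, ⟨p, hp, B, hB, h1, h2⟩, hz⟩ := h
  exact ⟨z, hU, B, hB.trans hA, h1, fun x hx => hz x (hB hx)⟩

theorem YI_shift (s : ℕ) : ∀ (b : ℕ) (A : Finset Cell), YI b A →
    YI b (A.image (fun p : Cell => (p.1 + s, p.2 + s)))
  | 0, _, _ => trivial
  | (b + 1), A, h => by
    obtain ⟨p, hp, B, hB, h1, h2⟩ := h
    refine ⟨(p.1 + s, p.2 + s), Finset.mem_image_of_mem _ hp,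
      B.image (fun p : Cell => (p.1 + s, p.2 + s)), Finset.image_subset_image hB,
      YI_shift s b B h1, ?_⟩
    intro x hx
    obtain ⟨y, hy, rfl⟩ := Finset.mem_image.mp hx
    have := h2 y hy
    simp only at this ⊢
    exact ⟨by omega, by omega⟩

/-! ### the parameters -/

/-- the main inequalities for the probabilities -/
theorem gain_step
    (gain : ∀ (X Y : Finset Cell → Prop) (q : ℝ), 0 < q → q < 1 → ∀ (M r : ℕ),
      q ^ 7 * (r : ℝ) ^ 14 * Pr q M (fun ω => Es X Y (7 * r) M ω ∧ ¬ C1 X Y ω) -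
        (M : ℝ) ^ 3 * q ^ 2 ≤ Pr q M (C4 X Y) - Pr q M (CB X Y))
    (q : ℝ) (hq0 : 0 < q) (hq1 : q < 1) (M r a b : ℕ) :
    q ^ 7 * (r : ℝ) ^ 14 * (Pr q M (Cab a b) - Pr q (M + 7 * r) (Cab a (b + 1))) -
        ((M + 7 * r : ℕ) : ℝ) ^ 3 * q ^ 2 ≤
      Pr q (M + 7 * r) (Cab a (b + 4)) - Pr q (M + 7 * r) (Cab (a + 1) b) := by
  have h1 := gain (XB a) (YI b) q hq0 hq1 (M + 7 * r) r
  have h2 := Pool.H52.AL.H74.shift (XB a) (YI b) q hq0.le hq1.le M (7 * r) (YI_shift (7 * r) b)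
  have h3 := Pr_split (q := q) (M + 7 * r) (Es (XB a) (YI b) (7 * r) (M + 7 * r))
    (C1 (XB a) (YI b))
  have h4 : Pr q (M + 7 * r) (fun ω => Es (XB a) (YI b) (7 * r) (M + 7 * r) ω ∧
      C1 (XB a) (YI b) ω) ≤ Pr q (M + 7 * r) (Cab a (b + 1)) :=
    Pr_mono' hq0.le hq1.le _ (fun ω h => C1_Cab a b h.2)
  have h5 : Pr q (M + 7 * r) (C4 (XB a) (YI b)) ≤ Pr q (M + 7 * r) (Cab a (b + 4)) :=
    Pr_mono' hq0.le hq1.le _ (fun ω h => C4_Cab a b h)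
  have h6 : Pr q (M + 7 * r) (Cab (a + 1) b) ≤ Pr q (M + 7 * r) (CB (XB a) (YI b)) :=
    Pr_mono' hq0.le hq1.le _ (fun ω h => Cab_CB a b h)
  have h7 : (0 : ℝ) ≤ q ^ 7 * (r : ℝ) ^ 14 := by positivity
  have h8 : Pr q M (Cab a b) - Pr q (M + 7 * r) (Cab a (b + 1)) ≤
      Pr q (M + 7 * r) (fun ω => Es (XB a) (YI b) (7 * r) (M + 7 * r) ω ∧
        ¬ C1 (XB a) (YI b) ω) := by
    have : Pr q M (Cab a b) = Pr q M (C0 (XB a) (YI b)) := rfl
    linarith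
  have h9 := mul_le_mul_of_nonneg_left h8 h7
  linarith

/-- the gain statement (module B) -/
def Gain : Prop := ∀ (X Y : Finset Cell → Prop) (q : ℝ), 0 < q → q < 1 → ∀ (M r : ℕ),
      q ^ 7 * (r : ℝ) ^ 14 * Pr q M (fun ω => Es X Y (7 * r) M ω ∧ ¬ C1 X Y ω) -
        (M : ℝ) ^ 3 * q ^ 2 ≤ Pr q M (C4 X Y) - Pr q M (CB X Y)

theorem gain_zero (gain : Gain) (q : ℝ) (hq0 : 0 < q) (hq1 : q < 1) (M a b : ℕ) :
    -((M : ℝ) ^ 3 * q ^ 2) ≤ Pr q M (Cab a (b + 4)) - Pr q M (Cab (a + 1) b) := by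
  have h := gain_step gain q hq0 hq1 M 0 a b
  simpa using h

/-- the consequence of the conjecture for one square -/
theorem low (q : ℝ) (hq0 : 0 < q) (hq1 : q < 1) (M n0 k a b : ℕ) (hM : 0 < M) (ε η : ℝ)
    (hε : 0 < ε) (hε1 : ε ≤ 1) (hk : 4 * a + b ≤ k)
    (hη : (M : ℝ) ^ 3 * q ^ 2 ≤ η)
    (H : ∀ n : ℕ, n0 ≤ n → (1 - ε) * ((Nat.factorial n : ℕ) : ℝ) ≤
        (((Finset.univ : Finset (Equiv.Perm (Fin n))).filter (fun σ => Uni k n σ)).card : ℝ))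
    (hn0 : (n0 : ℝ) ≤ (1 - ε) * (M ^ 2 * q)) :
    1 - (ε + η + 1 / (ε ^ 2 * (M ^ 2 * q))) ≤ Pr q M (Cab a b) := by
  have h1 := link q hq0 hq1 M n0 k a b ε hε.le hε1 hk H
  have h2 := one_le hq0.le hq1.le M n0
  have h3 := Pool.Agent.H27.AL.collision q hq0.le hq1.le M
  have h4 := Pool.Agent.H27.AL.tail q hq0 hq1 M n0 hM ε hε hn0
  have h5 : 1 - η - 1 / (ε ^ 2 * (M ^ 2 * q)) ≤ Pr q M (fun ω => NC ω ∧ n0 ≤ ω.card) := by
    linarith
  have h6 := mul_le_mul_of_nonneg_left h5 (show (0 : ℝ) ≤ 1 - ε by linarith)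
  have h7 : 0 ≤ η := le_trans (by positivity) hη
  have h8 : 0 ≤ 1 / (ε ^ 2 * (M ^ 2 * q)) := by positivity
  have h9 : 0 ≤ ε * (η + 1 / (ε ^ 2 * (M ^ 2 * q))) := by positivity
  linarith

theorem numer (m g η d ε : ℝ) (hm1 : 1 ≤ m) (hg0 : 0 < g) (hε : ε = g / 1000)
    (hε1 : ε ≤ 1 / 1000) (hηm : m * η ≤ ε) (hd0 : 0 ≤ d) (hd3 : d ≤ 3 * ε)
    (h : g * m * ((1 - d) * ((1 - 3 * ε) * (8 * m)) - 16 * m - m * (128 * m) * η +
        32 * m * (7 / 8 - d - m * η)) ≤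
      32 * m * (16 * m * (d + 3 * ε)) + 32 * m * (128 * m) * m * η) : False := by
  have hε0 : 0 < ε := by rw [hε]; positivity
  have hm0 : 0 < m := by linarith
  have e1 : (1 - 6 * ε) * (8 * m) ≤ (1 - d) * ((1 - 3 * ε) * (8 * m)) := by
    have h1 : (1 - 6 * ε) ≤ (1 - d) * (1 - 3 * ε) := by
      have h2 : 0 ≤ d * ε := by positivity
      linarith
    have h3 := mul_le_mul_of_nonneg_right h1 (show (0 : ℝ) ≤ 8 * m by positivity)
    linarith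
  have e2 : m * (128 * m) * η ≤ 128 * m * ε := by
    have := mul_le_mul_of_nonneg_left hηm (show (0 : ℝ) ≤ 128 * m by positivity)
    linarith
  have e3 : 32 * m * (7 / 8 - 4 * ε) ≤ 32 * m * (7 / 8 - d - m * η) :=
    mul_le_mul_of_nonneg_left (by linarith) (by positivity)
  have e0 : m * ε ≤ m * (1 / 1000) := mul_le_mul_of_nonneg_left hε1 hm0.le
  have e4 : 10 * m ≤ (1 - d) * ((1 - 3 * ε) * (8 * m)) - 16 * m - m * (128 * m) * η +
      32 * m * (7 / 8 - d - m * η) := by linarith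
  have e5 := mul_le_mul_of_nonneg_left e4 (show (0 : ℝ) ≤ g * m by positivity)
  have e6 : 32 * m * (16 * m * (d + 3 * ε)) ≤ 32 * m * (16 * m * (6 * ε)) := by
    apply mul_le_mul_of_nonneg_left _ (by positivity)
    apply mul_le_mul_of_nonneg_left _ (by positivity)
    linarith
  have e7 : 32 * m * (128 * m) * m * η ≤ 32 * m * (128 * m) * ε := by
    have := mul_le_mul_of_nonneg_left hηm (show (0 : ℝ) ≤ 32 * m * (128 * m) by positivity)
    linarith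
  have e8 : g * m * (10 * m) ≤ 7168 * m ^ 2 * ε := by linarith
  rw [hε] at e8
  have e9 : 0 < g * m ^ 2 := by positivity
  linarith

/-- from the conjecture at `ε` to the hypothesis of the link -/
theorem arith_low (ε x κ N : ℝ) (hε0 : 0 < ε) (hε1 : ε ≤ 1 / 1000) (hx : 1 ≤ x)
    (hxε : 1 ≤ x * ε) (hκ0 : 0 ≤ κ) (hκ : κ ≤ (1 - 2 * ε) * (2 * x))
    (hN : (1 - ε) * x ^ 2 - 1 ≤ N) : (1 + ε) * (κ ^ 2 / 4) ≤ N := by
  have h6 : κ ^ 2 ≤ ((1 - 2 * ε) * (2 * x)) ^ 2 := pow_le_pow_left₀ hκ0 hκ 2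
  have h7 : (1 + ε) * (κ ^ 2 / 4) ≤ (1 + ε) * ((1 - 2 * ε) ^ 2 * x ^ 2) := by
    apply mul_le_mul_of_nonneg_left _ (by linarith)
    have : ((1 - 2 * ε) * (2 * x)) ^ 2 = 4 * ((1 - 2 * ε) ^ 2 * x ^ 2) := by ring
    linarith
  have h8 : (1 + ε) * (1 - 2 * ε) ^ 2 ≤ 1 - 2 * ε := by
    have h1 : (1 + ε) * (1 - 2 * ε) ≤ 1 := by
      have : 0 ≤ ε ^ 2 := by positivity
      linarith
    have h2 : (1 + ε) * (1 - 2 * ε) ^ 2 = ((1 + ε) * (1 - 2 * ε)) * (1 - 2 * ε) := by ring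
    rw [h2]
    have h3 := mul_le_mul_of_nonneg_right h1 (show (0 : ℝ) ≤ 1 - 2 * ε by linarith)
    linarith
  have h9 : (1 + ε) * ((1 - 2 * ε) ^ 2 * x ^ 2) ≤ (1 - 2 * ε) * x ^ 2 := by
    rw [← mul_assoc]
    exact mul_le_mul_of_nonneg_right h8 (by positivity)
  have h10 : 1 ≤ ε * x ^ 2 := by
    have h1 : x * ε * 1 ≤ x * ε * x := mul_le_mul_of_nonneg_left hx (by linarith)
    linarith
  linarith

/-- the frozen statement, given module B -/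
theorem final (gain : Gain) :
    ¬ (∀ ε : ℝ, 0 < ε → ∀ δ : ℝ, 0 < δ → ∃ K : ℕ, ∀ k : ℕ, K ≤ k → ∀ n : ℕ,
      (1 + ε) * ((k : ℝ) ^ 2 / 4) ≤ (n : ℝ) →
      (1 - δ) * ((Nat.factorial n : ℕ) : ℝ) ≤
        (((Finset.univ : Finset (Equiv.Perm (Fin n))).filter
          (fun σ : Equiv.Perm (Fin n) =>
            ∀ π : Equiv.Perm (Fin k), ∃ f : Fin k ↪o Fin n,
              ∀ i j : Fin k, (π i < π j ↔ σ (f i) < σ (f j)))).card : ℝ)) := by
  intro conj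
  obtain ⟨g, hg⟩ : ∃ g : ℝ, g = (1 / 56 : ℝ) ^ 14 := ⟨_, rfl⟩
  have hg0 : 0 < g := by rw [hg]; positivity
  have hg1 : g ≤ 1 := by rw [hg]; norm_num
  obtain ⟨ε, hε⟩ : ∃ ε : ℝ, ε = g / 1000 := ⟨_, rfl⟩
  have hε0 : 0 < ε := by rw [hε]; positivity
  have hε1 : ε ≤ 1 / 1000 := by rw [hε]; linarith
  obtain ⟨K, hK⟩ := conj ε hε0 ε hε0
  -- the size
  obtain ⟨n, hn⟩ := exists_nat_ge (max (K : ℝ) (1 / ε ^ 2))
  obtain ⟨m, hm⟩ : ∃ m : ℝ, m = (n : ℝ) + 1 := ⟨_, rfl⟩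
  have hmK : (K : ℝ) ≤ m := by
    have := le_trans (le_max_left _ _) hn
    linarith
  have hmε : 1 / ε ^ 2 ≤ m := by
    have := le_trans (le_max_right _ _) hn
    linarith
  have hm1 : 1 ≤ m := by
    have : (0 : ℝ) ≤ n := Nat.cast_nonneg _
    linarith
  have hmε2 : 1 ≤ m * ε ^ 2 := by
    rw [div_le_iff₀ (by positivity)] at hmε
    exact hmε
  have hmε1 : 1000 ≤ m * ε := by
    have h1 : m * ε ^ 2 ≤ m * ε * (1 / 1000) := by
      have : m * ε ^ 2 = m * ε * ε := by ring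
      rw [this]
      exact mul_le_mul_of_nonneg_left hε1 (by positivity)
    linarith
  -- the fineness
  obtain ⟨r, hr⟩ := exists_nat_ge (10 * m ^ 4 / ε)
  have hr0 : (0 : ℝ) < r := lt_of_lt_of_le (by positivity) hr
  have hr1 : 1 ≤ r := by exact_mod_cast hr0
  have hr1' : (1 : ℝ) ≤ r := by exact_mod_cast hr1
  obtain ⟨q, hq⟩ : ∃ q : ℝ, q = (1 / (56 * (r : ℝ))) ^ 2 := ⟨_, rfl⟩
  have hq0 : 0 < q := by rw [hq]; positivity
  have hq1 : q < 1 := by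
    rw [hq]
    have h1 : 1 / (56 * (r : ℝ)) < 1 := by
      rw [div_lt_one (by positivity)]
      linarith
    have h2 : 0 ≤ 1 / (56 * (r : ℝ)) := by positivity
    exact pow_lt_one₀ h2 h1 (by norm_num)
  have hsq : Real.sqrt q = 1 / (56 * (r : ℝ)) := by
    rw [hq, Real.sqrt_sq (by positivity)]
  obtain ⟨M, hM⟩ : ∃ M : ℕ → ℕ, ∀ j, M j = 7 * r * (32 * (n + 1) + j) := ⟨_, fun _ => rfl⟩
  have hMr : ∀ j, (M j : ℝ) = 7 * r * (32 * m + j) := by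
    intro j
    rw [hM, hm]
    push_cast
    ring
  have hMstep : ∀ j, M (j + 1) = M j + 7 * r := by
    intro j
    rw [hM, hM]
    ring
  have hMpos : ∀ j, 0 < M j := by
    intro j
    rw [hM]
    positivity
  obtain ⟨η, hηd⟩ : ∃ η : ℝ, η = 10 * m ^ 3 / r := ⟨_, rfl⟩
  have hη0 : 0 ≤ η := by rw [hηd]; positivity
  have hηm : m * η ≤ ε := by
    rw [hηd]
    rw [div_le_iff₀ hε0] at hr
    rw [mul_div_assoc', div_le_iff₀ hr0]
    linarith
  have hη1 : η ≤ ε := by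
    have h1 : 1 * η ≤ m * η := mul_le_mul_of_nonneg_right hm1 hη0
    linarith
  have hj : ∀ j : ℕ, j ≤ 32 * (n + 1) → (j : ℝ) ≤ 32 * m := by
    intro j hj
    have : (j : ℝ) ≤ ((32 * (n + 1) : ℕ) : ℝ) := by exact_mod_cast hj
    push_cast at this
    rw [hm]
    exact this
  have hcol : ∀ j : ℕ, j ≤ 32 * (n + 1) → (M j : ℝ) ^ 3 * q ^ 2 ≤ η := by
    intro j hj'
    have h1 := hj j hj'
    have h2 : (M j : ℝ) ≤ 448 * r * m := by
      rw [hMr]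
      have : 7 * (r : ℝ) * (32 * m + j) ≤ 7 * r * (64 * m) :=
        mul_le_mul_of_nonneg_left (by linarith) (by positivity)
      linarith
    have h3 : (M j : ℝ) ^ 3 * q ^ 2 ≤ (448 * r * m) ^ 3 * q ^ 2 := by
      apply mul_le_mul_of_nonneg_right _ (by positivity)
      exact pow_le_pow_left₀ (by positivity) h2 3
    have h4 : (448 * (r : ℝ) * m) ^ 3 * q ^ 2 = (64 / 7) * m ^ 3 / r := by
      rw [hq]
      field_simp
      norm_num
    have h5 : (64 / 7) * m ^ 3 / r ≤ 10 * m ^ 3 / r := by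
      apply div_le_div_of_nonneg_right _ hr0.le
      apply mul_le_mul_of_nonneg_right (by norm_num) (by positivity)
    rw [hηd]
    linarith
  have hgr : q ^ 7 * (r : ℝ) ^ 14 = g := by
    rw [hq, hg]
    field_simp
  -- `M² q`
  have hM2 : ∀ j, (M j : ℝ) ^ 2 * q = ((32 * m + j) / 8) ^ 2 := by
    intro j
    rw [hMr, hq]
    field_simp
    norm_num
  -- the lengths guaranteed by the conjecture
  obtain ⟨κ, hκ⟩ : ∃ κ : ℕ → ℕ, ∀ j : ℕ, κ j = ⌊(1 - 2 * ε) * (8 * m + (j : ℝ) / 4)⌋₊ :=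
    ⟨_, fun _ => rfl⟩
  have hκu : ∀ j : ℕ, (κ j : ℝ) ≤ (1 - 2 * ε) * (8 * m + (j : ℝ) / 4) := by
    intro j
    rw [hκ]
    apply Nat.floor_le
    have : 0 ≤ 1 - 2 * ε := by linarith
    positivity
  have hκl : ∀ j : ℕ, (1 - 3 * ε) * (8 * m + (j : ℝ) / 4) ≤ κ j := by
    intro j
    have h1 := (Nat.lt_floor_add_one ((1 - 2 * ε) * (8 * m + (j : ℝ) / 4))).le
    rw [← hκ] at h1
    have h2 : 0 ≤ ε * ((j : ℝ) / 4) := by positivity
    linarith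
  have hκ4 : ∀ j : ℕ, 4 * m ≤ κ j := by
    intro j
    have h1 := hκl j
    have h2 : (1 - 3 * ε) * (8 * m) ≤ (1 - 3 * ε) * (8 * m + (j : ℝ) / 4) := by
      apply mul_le_mul_of_nonneg_left _ (by linarith)
      have : (0 : ℝ) ≤ (j : ℝ) / 4 := by positivity
      linarith
    have h3 : m * ε ≤ m * (1 / 1000) := mul_le_mul_of_nonneg_left hε1 (by linarith)
    linarith
  obtain ⟨d, hd⟩ : ∃ d : ℝ, d = ε + η + 1 / (ε ^ 2 * (16 * m ^ 2)) := ⟨_, rfl⟩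
  have hd3 : d ≤ 3 * ε := by
    have h1 : 1 / (ε ^ 2 * (16 * m ^ 2)) ≤ ε := by
      rw [div_le_iff₀ (by positivity)]
      have h2 : 1 * 1000 ≤ (m * ε ^ 2) * (m * ε) :=
        mul_le_mul hmε2 hmε1 (by norm_num) (by positivity)
      linarith
    rw [hd]
    linarith
  have hd0 : 0 ≤ d := by rw [hd]; positivity
  -- lower bounds
  have hlow : ∀ j ≤ 32 * (n + 1), ∀ a b, 4 * a + b ≤ κ j → 1 - d ≤ Pr q (M j) (Cab a b) := by
    intro j hj' a b hab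
    have hx : 4 * m ≤ (32 * m + j) / 8 := by
      have : (0 : ℝ) ≤ j := Nat.cast_nonneg _
      linarith
    obtain ⟨x, hxd⟩ : ∃ x : ℝ, x = (32 * m + j) / 8 := ⟨_, rfl⟩
    rw [← hxd] at hx
    have hx0 : 0 < x := by linarith
    have hn0 : ((⌊(1 - ε) * x ^ 2⌋₊ : ℕ) : ℝ) ≤ (1 - ε) * ((M j : ℝ) ^ 2 * q) := by
      rw [hM2, ← hxd]
      apply Nat.floor_le
      have : 0 ≤ 1 - ε := by linarith
      positivity
    have h1 := low q hq0 hq1 (M j) ⌊(1 - ε) * x ^ 2⌋₊ (κ j) a b (hMpos j) ε η hε0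
      (by linarith) hab (hcol j hj') ?_ hn0
    · have h2 : 1 / (ε ^ 2 * ((M j : ℝ) ^ 2 * q)) ≤ 1 / (ε ^ 2 * (16 * m ^ 2)) := by
        rw [hM2, ← hxd]
        apply one_div_le_one_div_of_le (by positivity)
        apply mul_le_mul_of_nonneg_left _ (by positivity)
        have h3 : (4 * m) ^ 2 ≤ x ^ 2 := pow_le_pow_left₀ (by positivity) hx 2
        linarith
      rw [hd]
      linarith
    · intro N hN
      have h2 : ((⌊(1 - ε) * x ^ 2⌋₊ : ℕ) : ℝ) ≤ (N : ℝ) := by exact_mod_cast hN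
      have h3 := (Nat.lt_floor_add_one ((1 - ε) * x ^ 2)).le
      have h4 := hκu j
      have h5 : (1 - 2 * ε) * (8 * m + (j : ℝ) / 4) = (1 - 2 * ε) * (2 * x) := by
        rw [hxd]; ring
      rw [h5] at h4
      have h6 : K ≤ κ j := by
        have h2 := hκ4 j
        have h3 : (K : ℝ) ≤ κ j := by linarith
        exact_mod_cast h3
      have h7 : 1 ≤ x * ε := by
        have := mul_le_mul_of_nonneg_right hx hε0.le
        linarith
      exact le_trans (hK (κ j) h6 N (arith_low ε x (κ j) N hε0 hε1 (by linarith) h7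
        (Nat.cast_nonneg _) h4 (by linarith)))
        (Nat.cast_le.mpr (card_filter_le_imp _ _ _ (fun σ _ h => h)))
  have hcore := core n (fun j a b => Pr q (M j) (Cab a b)) κ g η d (3 * ε) hg0 hη0 hd0
    (by linarith) (by linarith) (fun j a b => Pr_nonneg' hq0.le hq1.le _ _)
    ?_ (fun j b => Pr_mono' hq0.le hq1.le _ (fun ω h => Cab_anti b h)) ?_ ?_ hlow ?_ ?_ ?_
  · rw [← hm] at hcore
    exact numer m g η d ε hm1 hg0 hε hε1 hηm hd0 hd3 hcore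
  · intro j hj' β
    have h1 := Pool.H36.AL.lis q hq0 hq1 (M j) β
    rw [hsq, hMr] at h1
    refine le_trans h1 (le_of_eq ?_)
    rw [hm]
    field_simp
    ring
  · intro j hj' a b
    have h1 := gain_step gain q hq0 hq1 (M j) r a b
    rw [← hMstep, hgr] at h1
    have h2 := hcol (j + 1) hj'
    linarith
  · intro j hj' a b
    have h1 := gain_zero gain q hq0 hq1 (M j) a b
    have h2 := hcol j hj'
    linarith
  · intro j _
    rw [← hm]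
    exact hκl j
  · intro j hj'
    have h1 := hκu j
    have h2 := hj j hj'
    have h3 : (κ j : ℝ) ≤ ((128 * (n + 1) : ℕ) : ℝ) := by
      push_cast
      rw [← hm]
      have h4 : (0 : ℝ) ≤ (j : ℝ) := Nat.cast_nonneg _
      have h5 : 0 ≤ ε * (8 * m + (j : ℝ) / 4) := by positivity
      linarith
    exact_mod_cast h3
  · intro j _
    have h1 := hκ4 j
    have h3 : ((4 * (n + 1) : ℕ) : ℝ) ≤ κ j := by
      push_cast
      rw [← hm]
      exact h1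
    exact_mod_cast h3

end Pool.H15.AL
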